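import Pool.Agent.Helper71.FX.St

/-!
# Project FX (MP_d629b1_an): module BS (the Hilbert basis)
-/

set_option autoImplicit false

open MeasureTheory
open scoped FourierTransform RealInnerProductSpace Matrix ComplexConjugate

noncomputable section

namespace Pool.Agent.Helper18.FX

open Wav Pool.Agent.Helper71.FX

/-- **BS** -/
theorem pBS : StBS := by
  intro n L N A ψ hG
  have hA : A.det ≠ 0 := Wav.expansive_det hG.exp
  obtain ⟨b, hb⟩ := hG.on
  have h1 : ∀ l, Integrable (ψ l) := fun l => WellLocalized.integrable (hG.loc l) hG.big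
  have h2 : ∀ l, MemLp (ψ l) 2 volume := fun l => (hG.loc l).memLp
  have hm2 : ∀ l j k, MemLp (affine A (ψ l) j k) 2 volume := fun l j k =>
    affine_memLp hA (h2 l) j k
  have hm1 : ∀ l j k, Integrable (affine A (ψ l) j k) := fun l j k => by
    rw [← memLp_one_iff_integrable]
    exact affine_memLp hA (memLp_one_iff_integrable.2 (h1 l)) j k
  refine ⟨b, fun p => hb p.1 p.2.1 p.2.2, fun p => ?_⟩
  obtain ⟨l, j, k⟩ := p
  have e2 : b (l, j, k) = (hm2 l j k).toLp _ := by
    apply Lp.ext
    exact (hb l j k).trans (hm2 l j k).coeFn_toLp.symm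
  rw [e2]
  have := fourier_toLp (hm1 l j k) (hm2 l j k)
  rwa [fourier_affine hA] at this

end Pool.Agent.Helper18.FX
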