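import Pool.Agent.Helper41.FX.StK2

/-!
# Project FX (MP_3bffab_ag), chapter K: module E12 of helper41

`P0[X][X]` is the polynomial ring in 12 variables and the pencil of pencils is `F`.
-/

set_option autoImplicit false

namespace Pool.Agent.Helper18.FX

open Polynomial Pool.Agent.Helper72.FX Pool.Agent.Helper41.FX

noncomputable section

/-- the polynomial ring in 12 variables -/
private abbrev P12 : Type := MvPolynomial (Fin 12) ℂ

private theorem aeval3 {A B : Type} [CommRing A] [Algebra ℂ A] [CommRing B] [Algebra ℂ B]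
    (g : A →ₐ[ℂ] B) (a b t : A) (p : MvPolynomial (Fin 3) ℂ) :
    g (MvPolynomial.aeval ![a, b, t] p) = MvPolynomial.aeval ![g a, g b, g t] p := by
  have h : (fun i => g ((![a, b, t] : Fin 3 → A) i)) = ![g a, g b, g t] := by
    funext i
    fin_cases i <;> rfl
  have h2 := MvPolynomial.comp_aeval (R := ℂ) (![a, b, t] : Fin 3 → A) g
  rw [h] at h2
  exact DFunLike.congr_fun h2 p

private theorem kx_hom {A B : Type} [CommRing A] [Algebra ℂ A] [CommRing B] [Algebra ℂ B]
    (g : A →ₐ[ℂ] B) (a b t : A) : g (kx a b t) = kx (g a) (g b) (g t) := aeval3 g a b t _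

private theorem ky_hom {A B : Type} [CommRing A] [Algebra ℂ A] [CommRing B] [Algebra ℂ B]
    (g : A →ₐ[ℂ] B) (a b t : A) : g (ky a b t) = ky (g a) (g b) (g t) := aeval3 g a b t _

private theorem kz_hom {A B : Type} [CommRing A] [Algebra ℂ A] [CommRing B] [Algebra ℂ B]
    (g : A →ₐ[ℂ] B) (a b t : A) : g (kz a b t) = kz (g a) (g b) (g t) := aeval3 g a b t _

private theorem nu_hom {A B : Type} [CommRing A] [Algebra ℂ A] [CommRing B] [Algebra ℂ B]
    (g : A →ₐ[ℂ] B) (a b t : A) : g (nu a b t) = nu (g a) (g b) (g t) := by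
  unfold nu
  simp only [map_add, map_sub, map_mul, map_pow, map_ofNat]

private theorem kappa_hom {A B : Type} [CommRing A] [Algebra ℂ A] [CommRing B] [Algebra ℂ B]
    (g : A →ₐ[ℂ] B) (a b t : A) : g (kappa a b t) = kappa (g a) (g b) (g t) := by
  unfold kappa
  simp only [map_sub, map_mul, map_pow, kx_hom, ky_hom, kz_hom]

private theorem E1_hom {A B : Type} [CommRing A] [Algebra ℂ A] [CommRing B] [Algebra ℂ B]
    (g : A →ₐ[ℂ] B) (a b t r n s m : A) :
    g (E1 a b t r n s m) = E1 (g a) (g b) (g t) (g r) (g n) (g s) (g m) := by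
  unfold E1
  simp only [map_sub, map_mul, nu_hom]

private theorem E2_hom {A B : Type} [CommRing A] [Algebra ℂ A] [CommRing B] [Algebra ℂ B]
    (g : A →ₐ[ℂ] B) (a b t r n s m x y z : A) :
    g (E2 a b t r n s m x y z) =
      E2 (g a) (g b) (g t) (g r) (g n) (g s) (g m) (g x) (g y) (g z) := by
  unfold E2
  simp only [map_add, map_sub, map_neg, map_mul, map_pow, map_ofNat, kappa_hom, kx_hom, ky_hom,
    kz_hom]

/-- the first ten variables -/
private def g0 : P0 →ₐ[ℂ] P12 := MvPolynomial.aeval (fun i : Fin 10 => MvPolynomial.X (Fin.castLE (by norm_num) i))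

private def f1 : P0[X] →+* P12 := Polynomial.eval₂RingHom g0.toRingHom (MvPolynomial.X 11)

private def f2 : P0[X][X] →+* P12 := Polynomial.eval₂RingHom f1 (MvPolynomial.X 10)

/-- the images of the variables -/
private def vv (i : Fin 12) : P0[X][X] :=
  if h : (i : ℕ) < 10 then C (C (MvPolynomial.X ⟨i, h⟩)) else if (i : ℕ) = 10 then X else C X

private def h12 : P12 →ₐ[ℂ] P0[X][X] := MvPolynomial.aeval vv

private theorem f2_CC (p : P0) : f2 (C (C p)) = g0 p := by
  simp [f2, f1]

private theorem f2_CX : f2 (C X) = MvPolynomial.X 11 := by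
  simp [f2, f1]

private theorem f2_X : f2 X = MvPolynomial.X 10 := by
  simp [f2]

private theorem g0_C (c : ℂ) : g0 (MvPolynomial.C c) = MvPolynomial.C c := by
  unfold g0
  rw [MvPolynomial.aeval_C]
  rfl

private theorem g0_X (i : Fin 10) : g0 (MvPolynomial.X i) = MvPolynomial.X (Fin.castLE (by norm_num) i) := by
  unfold g0
  rw [MvPolynomial.aeval_X]

private theorem h12_C (c : ℂ) : h12 (MvPolynomial.C c) = C (C (MvPolynomial.C c)) := by
  unfold h12
  rw [MvPolynomial.aeval_C]
  rfl

private theorem h12_X (i : Fin 12) : h12 (MvPolynomial.X i) = vv i := by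
  unfold h12
  rw [MvPolynomial.aeval_X]

private theorem fh : f2.comp h12.toRingHom = RingHom.id P12 := by
  refine MvPolynomial.ringHom_ext (fun c => ?_) (fun i => ?_)
  · change f2 (h12 (MvPolynomial.C c)) = MvPolynomial.C c
    rw [h12_C, f2_CC, g0_C]
  · change f2 (h12 (MvPolynomial.X i)) = MvPolynomial.X i
    rw [h12_X]
    unfold vv
    split_ifs with h h'
    · rw [f2_CC, g0_X]
      congr 1
    · rw [f2_X]
      congr 1
      exact Fin.ext h'.symm
    · rw [f2_CX]
      congr 1
      apply Fin.ext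
      have := i.isLt
      change 11 = (i : ℕ)
      omega

private theorem hf : h12.toRingHom.comp f2 = RingHom.id P0[X][X] := by
  refine Polynomial.ringHom_ext' (Polynomial.ringHom_ext' (MvPolynomial.ringHom_ext (fun c => ?_)
    (fun i => ?_)) ?_) ?_
  · change h12 (f2 (C (C (MvPolynomial.C c)))) = C (C (MvPolynomial.C c))
    rw [f2_CC, g0_C, h12_C]
  · change h12 (f2 (C (C (MvPolynomial.X i)))) = C (C (MvPolynomial.X i))
    rw [f2_CC, g0_X, h12_X]
    unfold vv
    rw [dif_pos (show ((Fin.castLE (by norm_num : 10 ≤ 12) i : Fin 12) : ℕ) < 10 from i.isLt)]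
    rfl
  · change h12 (f2 (C X)) = C X
    rw [f2_CX, h12_X]
    rfl
  · change h12 (f2 X) = X
    rw [f2_X, h12_X]
    rfl

private theorem pel_gen (B R : Type) [CommRing B] [CommRing R] (g : B →+* R) (w1 w2 : R)
    (a b s : B) :
    Polynomial.eval₂RingHom (Polynomial.eval₂RingHom g w2) w1 (pel (C a) (-pel b s)) =
      g a * w1 + (g b * w2 - g s) := by
  unfold pel
  simp only [map_neg, map_sub, map_mul, sub_neg_eq_add, Polynomial.coe_eval₂RingHom,
    Polynomial.eval₂_add, Polynomial.eval₂_sub, Polynomial.eval₂_mul, Polynomial.eval₂_C,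
    Polynomial.eval₂_X]

private theorem f2_pel0 : f2 (pel (C e1) (-pel e2 ss)) =
    g0 e1 * MvPolynomial.X 10 + (g0 e2 * MvPolynomial.X 11 - g0 ss) :=
  pel_gen P0 P12 g0.toRingHom (MvPolynomial.X 10) (MvPolynomial.X 11) e1 e2 ss

private theorem f2_pel : f2 (pel (C e1) (-pel e2 ss)) = FP := by
  rw [f2_pel0]
  unfold e1 e2 ss v10
  rw [E1_hom, E2_hom, map_sub]
  simp only [g0_X]
  unfold FP FF
  change E1 (MvPolynomial.X 0) (MvPolynomial.X 1) (MvPolynomial.X 2) (MvPolynomial.X 3)
      (MvPolynomial.X 4) (MvPolynomial.X 5) (MvPolynomial.X 6) * MvPolynomial.X 10 +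
    (E2 (MvPolynomial.X 0) (MvPolynomial.X 1) (MvPolynomial.X 2) (MvPolynomial.X 3)
      (MvPolynomial.X 4) (MvPolynomial.X 5) (MvPolynomial.X 6) (MvPolynomial.X 7)
      (MvPolynomial.X 8) (MvPolynomial.X 9) * MvPolynomial.X 11 -
      (MvPolynomial.X 5 - MvPolynomial.X 3)) = _
  rw [add_sub_assoc]

theorem hE12 : StE12 := ⟨RingEquiv.ofRingHom f2 h12.toRingHom fh hf, f2_pel⟩

end

end Pool.Agent.Helper18.FX
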