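import Pool.Agent.Helper65.FX.St

/-!
# Project FX (MP_3bffab_ag), chapter S: module HOM of helper65

Homotopies of a compact subset of `Y` in `Y` are realised by words of flows with continuous
parameters.
-/

set_option autoImplicit false

namespace Pool.Agent.Helper18.FX

open Pool.Agent.Helper65.FX Pool.Agent.Helper87.FX
open Set Topology Metric Filter
open scoped ContDiff

section aux

variable {V : Type} [NormedAddCommGroup V]

/-- points near a compact set `M`: the pair is in a given open neighbourhood of the diagonal of `M` -/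
theorem near_diag (M : Set V) (O : Set (V × V)) (hM : IsCompact M) (hO : IsOpen O)
    (hd : ∀ y ∈ M, (y, y) ∈ O) :
    ∃ δ : ℝ, 0 < δ ∧ ∀ y ∈ M, ∀ y' : V, dist y y' < δ → (y, y') ∈ O := by
  have hK : IsCompact ((fun y : V => (y, y)) '' M) := hM.image (by fun_prop)
  have hsub : (fun y : V => (y, y)) '' M ⊆ O := by
    rintro _ ⟨y, hy, rfl⟩
    exact hd y hy
  obtain ⟨δ, hδ, hth⟩ := hK.exists_thickening_subset_open hO hsub
  refine ⟨δ, hδ, fun y hy y' hyy' => hth ?_⟩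
  rw [mem_thickening_iff]
  refine ⟨(y, y), ⟨y, hy, rfl⟩, ?_⟩
  rw [Prod.dist_eq]
  simp only [dist_self]
  rw [dist_comm y' y]
  exact max_lt hδ hyy'

/-- the times of a homotopy can be subdivided so that the steps are short, uniformly on `L` -/
theorem subdiv (L : Set V) (H : V → ℝ → V) (hL : IsCompact L)
    (hH : ContinuousOn (fun z : V × ℝ => H z.1 z.2) (L ×ˢ Icc (0 : ℝ) 1)) (δ : ℝ) (hδ : 0 < δ) :
    ∃ n : ℕ, ∀ x ∈ L, ∀ t ∈ Icc (0 : ℝ) 1, ∀ t' ∈ Icc (0 : ℝ) 1,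
      dist t t' ≤ 1 / ((n : ℝ) + 1) → dist (H x t) (H x t') < δ := by
  have hK : IsCompact (L ×ˢ Icc (0 : ℝ) 1) := hL.prod isCompact_Icc
  have hu := hK.uniformContinuousOn_of_continuous hH
  rw [Metric.uniformContinuousOn_iff] at hu
  obtain ⟨η, hη, h⟩ := hu δ hδ
  obtain ⟨n, hn⟩ := exists_nat_one_div_lt hη
  refine ⟨n, fun x hx t ht t' ht' htt => ?_⟩
  refine h (x, t) ⟨hx, ht⟩ (x, t') ⟨hx, ht'⟩ ?_
  rw [Prod.dist_eq]
  simp only [dist_self]
  exact max_lt hη (lt_of_le_of_lt htt hn)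

theorem cont_time (L : Set V) (H : V → ℝ → V)
    (hH : ContinuousOn (fun z : V × ℝ => H z.1 z.2) (L ×ˢ Icc (0 : ℝ) 1)) (t : ℝ)
    (ht : t ∈ Icc (0 : ℝ) 1) : ContinuousOn (fun x => H x t) L := by
  have h1 : ContinuousOn (fun x : V => (x, t)) L := by fun_prop
  exact ContinuousOn.comp (g := fun z : V × ℝ => H z.1 z.2) (f := fun x : V => (x, t)) hH h1
    (fun x hx => ⟨hx, ht⟩)

theorem time_mem (n j : ℕ) (hj : j ≤ n + 1) : ((j : ℝ) / ((n : ℝ) + 1)) ∈ Icc (0 : ℝ) 1 := by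
  have hn : (0 : ℝ) < (n : ℝ) + 1 := by positivity
  refine ⟨by positivity, ?_⟩
  rw [div_le_one hn]
  exact_mod_cast hj

theorem time_dist (n j : ℕ) :
    dist ((j : ℝ) / ((n : ℝ) + 1)) (((j + 1 : ℕ) : ℝ) / ((n : ℝ) + 1)) ≤ 1 / ((n : ℝ) + 1) := by
  have hn : (0 : ℝ) < (n : ℝ) + 1 := by positivity
  rw [Real.dist_eq]
  have h : (j : ℝ) / ((n : ℝ) + 1) - ((j + 1 : ℕ) : ℝ) / ((n : ℝ) + 1) = -(1 / ((n : ℝ) + 1)) := by
    push_cast
    field_simp
    ring
  rw [h, abs_neg, abs_of_pos (by positivity)]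

end aux

theorem hHOM : StUNI → StCLO → StRWD → StHOM := by
  intro hUNI hCLO hRWD V _ _ _ P 𝓕 L H hP hsurj hF hspan hL hH hP0 hH0
  have hMc : IsCompact ((fun z : V × ℝ => H z.1 z.2) '' (L ×ˢ Icc (0 : ℝ) 1)) :=
    (hL.prod isCompact_Icc).image_of_continuousOn hH
  have hM0 : ∀ y ∈ (fun z : V × ℝ => H z.1 z.2) '' (L ×ˢ Icc (0 : ℝ) 1), P y = 0 := by
    rintro _ ⟨z, hz, rfl⟩
    exact hP0 z.1 hz.1 z.2 hz.2
  obtain ⟨N, e, he, hsp⟩ := hUNI V P 𝓕 _ hP hsurj hF hspan hMc hM0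
  obtain ⟨O, b, hO, hdiag, hbc, hb⟩ :=
    hCLO V P N e _ hP hsurj (fun k => hF _ (he k)) hMc hM0 hsp
  obtain ⟨δ, hδ, hnear⟩ := near_diag _ O hMc hO hdiag
  obtain ⟨n, hn⟩ := subdiv L H hL hH δ hδ
  have key : ∀ j : ℕ, j ≤ n + 1 → Rch 𝓕 L (fun x => H x ((j : ℝ) / ((n : ℝ) + 1))) := by
    intro j
    induction j with
    | zero =>
      intro _
      refine Rch.base _ ?_
      intro x hx
      simp only [Nat.cast_zero, zero_div, id]
      exact hH0 x hx
    | succ j ih =>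
      intro hj
      have hj' : j ≤ n + 1 := by omega
      have ht := time_mem n j hj'
      have ht' := time_mem n (j + 1) hj
      have hmaps : ∀ x ∈ L,
          (H x ((j : ℝ) / ((n : ℝ) + 1)), H x (((j + 1 : ℕ) : ℝ) / ((n : ℝ) + 1))) ∈ O := by
        intro x hx
        exact hnear _ ⟨(x, (j : ℝ) / ((n : ℝ) + 1)), ⟨hx, ht⟩, rfl⟩ _
          (hn x hx _ ht _ ht' (time_dist n j))
      refine hRWD V 𝓕 L N e
        (fun x => b (H x ((j : ℝ) / ((n : ℝ) + 1)), H x (((j + 1 : ℕ) : ℝ) / ((n : ℝ) + 1))))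
        _ _ he ?_ (ih hj') ?_
      · exact ContinuousOn.comp (g := b)
          (f := fun x =>
            (H x ((j : ℝ) / ((n : ℝ) + 1)), H x (((j + 1 : ℕ) : ℝ) / ((n : ℝ) + 1))))
          hbc ((cont_time L H hH _ ht).prodMk (cont_time L H hH _ ht')) hmaps
      · intro x hx
        exact (hb _ (hmaps x hx) (hP0 x hx _ ht) (hP0 x hx _ ht')).symm
  have h1 := key (n + 1) le_rfl
  have hone : (((n + 1 : ℕ) : ℝ) / ((n : ℝ) + 1)) = 1 := by
    push_cast
    exact div_self (by positivity)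
  rw [hone] at h1
  exact h1

end Pool.Agent.Helper18.FX
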