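import Pool.Agent.Helper84.FX.StX

/-!
# Project FX (MP_3bffab_ag), chapter T: module T7 of helper84

`Y` is weakly contractible.
-/

set_option autoImplicit false

namespace Pool.Agent.Helper18.FX

open Pool.Agent.Helper84.FX Pool.Agent.Helper72.FX
open Set

private theorem wc_plane (h : StWCA) : WC (univ : Set ℂ) := by
  refine h.1 ℂ univ 0 (fun q => (1 - (q.1 : ℂ)) * q.2) (mem_univ _) ⟨?_, ?_⟩ ?_ ?_
  · exact Continuous.continuousOn (by fun_prop)
  · exact fun _ _ => mem_univ _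
  · intro x _
    simp
  · intro x _
    simp

private theorem tY_mp : Mp (YY FP) (univ : Set ℂ) tY := by
  refine ⟨Continuous.continuousOn ?_, fun _ _ => mem_univ _⟩
  unfold tY
  fun_prop

private theorem set0 : {y : ℂ | y ∈ (univ : Set ℂ) ∧ (fun t : ℂ => t) y = 0} = {t : ℂ | t = 0} := by
  ext y
  simp

private theorem set1 : {y : ℂ | y ∈ (univ : Set ℂ) ∧ (fun t : ℂ => t) y ≠ 0} = {t : ℂ | t ≠ 0} := by
  ext y
  simp

theorem hT7 : StGL → StTYT → StY00 → StYT → StWCA → StT7 := by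
  intro hGL hTYT hY0 hYT hWCA
  have h : WE (YY FP) (univ : Set ℂ) tY := by
    refine hGL (Fin 2 ⊕ Fin 12 → ℂ) ℂ ℂ (YY FP) univ tY (fun t => t) tY_mp hTYT.2 hTYT.1 ?_ ?_
    · rw [set0]
      exact hY0
    · rw [set1]
      exact hYT
  exact hWCA.2.2.1 _ _ _ _ _ h (wc_plane hWCA)

end Pool.Agent.Helper18.FX
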